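import Mathlib
import Pool.Agent.H18.Forest

namespace Pool.Agent.Results.MP_b83ca4_nt.TwoAndNever

open Pool.Agent.H18.Forest

theorem result :
    IsLeast {k : ℕ | 1 ≤ k ∧ ∃ (θ : Fin k → ℝ) (x : Fin k → ℂ), DenseForest (TBG θ x)} 2 ∧
    ∀ k : ℕ, 1 ≤ k → ∀ (θ : Fin k → ℝ) (x : Fin k → ℂ),
      ¬ (UniformlyDiscrete (TBG θ x) ∧ DenseForest (TBG θ x)) := by
  refine ⟨⟨⟨by norm_num, ?_⟩, ?_⟩, ?_⟩
  · obtain ⟨t, ht⟩ := (bad_countable.dense_compl ℝ).nonempty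
    exact ⟨![0, t], fun _ => 0, forest_of_good _ _ 0 1 (by simpa using ht)⟩
  · rintro k ⟨hk, θ, x, h⟩
    by_contra h2
    have : k = 1 := by omega
    subst this
    refine not_forest θ x (θ 0) (fun i => ⟨1, one_ne_zero, ?_⟩) h
    rw [Subsingleton.elim i 0]
    simpa using lam_int 1
  · rintro k hk θ x ⟨h1, h2⟩
    exact not_forest θ x (θ ⟨0, hk⟩) (fun i => commens θ x h1 i ⟨0, hk⟩) h2

end Pool.Agent.Results.MP_b83ca4_nt.TwoAndNever
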